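import Mathlib
import Pool.Agent.Lib.MP_00e05b_nt.Defs
import Pool.Agent.Lib.MP_00e05b_nt.PC.PFin
import Pool.Agent.Lib.MP_00e05b_nt.SharpFinal2

/-!
Pointwise lower bounds for Montgomery's pair correlation function to the right of `α = 1`, under the Riemann Hypothesis alone:
`F(α, T) ≥ 3/2 - α - ε` on `[1, 3/2]`, and `F(α, T) ≥ 1/2 + δ` on `[1, 1 + δ]` for an absolute constant `δ > 0`.
-/

namespace Pool.Agent.Results.MP_00e05b_nt.BeyondHalf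

open Pool.Agent.Lib.MP_00e05b_nt

/-- Assume the Riemann Hypothesis. (1) For every `ε > 0` there is `T₀` such that for all `T ≥ T₀` and all `α` with `1 ≤ α ≤ 3/2`, the number
`F(α, T)` is real and at least `3/2 - α - ε`. (2) There are `δ > 0` and `T₀` such that for all `T ≥ T₀` and all `α` with `1 ≤ α ≤ 1 + δ`, the
number `F(α, T)` is real and at least `1/2 + δ`. -/
theorem result (hRH : RiemannHypothesis) :
    (∀ ε : ℝ, 0 < ε → ∃ T₀ : ℝ, ∀ T : ℝ, T₀ ≤ T → ∀ α : ℝ, 1 ≤ α → α ≤ 3 / 2 →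
      ∃ r : ℝ, 3 / 2 - α - ε ≤ r ∧ pairF α T = (r : ℂ)) ∧
    (∃ δ : ℝ, 0 < δ ∧ ∃ T₀ : ℝ, ∀ T : ℝ, T₀ ≤ T → ∀ α : ℝ, 1 ≤ α → α ≤ 1 + δ →
      ∃ r : ℝ, 1 / 2 + δ ≤ r ∧ pairF α T = (r : ℂ)) := by
  refine ⟨fun ε hε => ?_, ?_⟩
  · obtain ⟨T₀, h⟩ := F_stage2 hRH hε
    refine ⟨T₀, fun T hT α h1 h2 => ?_⟩
    obtain ⟨r, hr1, hr2⟩ := h T hT α h1 h2
    exact ⟨r, hr2, hr1⟩
  · obtain ⟨δ, hδ, T₀, h⟩ := PC.F_beyond hRH
    refine ⟨δ, hδ, T₀, fun T hT α h1 h2 => ?_⟩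
    obtain ⟨r, hr1, hr2⟩ := h T hT α h1 h2
    exact ⟨r, hr2, hr1⟩

end Pool.Agent.Results.MP_00e05b_nt.BeyondHalf
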