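import Mathlib
import Pool.Agent.Lib.MP_00e05b_nt.Defs
import Pool.Agent.Lib.MP_00e05b_nt.Mont.Defs
import Pool.Agent.Lib.MP_00e05b_nt.Mont.HvF

/-!
The halves of the pair correlation conjecture for the zeros of the Riemann zeta function, under the Riemann Hypothesis: the averaged strong
pair correlation conjecture, its upper half, its lower half together with simplicity and weak repulsion of the zeros, the counting form, its
lower half, and its upper half together with simplicity of the zeros, are all equivalent.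
-/

open Set Filter Topology MeasureTheory

namespace Pool.Agent.Results.MP_00e05b_nt.Halves

open Pool.Agent.Lib.MP_00e05b_nt Pool.Agent.Lib.MP_00e05b_nt.Mont

/-- Assume the Riemann Hypothesis. `F(α, T)` is `pairF α T` (a real number), `NP T β` is the number of pairs of zeros with ordinates in `(0, T]` and
`0 < γ - γ' ≤ 2πβ / log T`, `Nstar T = ∑ m²` over the distinct ordinates in `(0, T]`, `N0 T = (T/2π) log T` and
`gue β = ∫_0^β (1 - (sin πu / πu)²) du`. The following are equivalent: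
1. `∫_a^b F(α, T) dα → b - a` for all `1 ≤ a < b`;
2. `∫_a^b F(α, T) dα ≤ b - a + o(1)` for all `1 ≤ a < b`;
3. `NP(T, β)/N0 → gue β` for every `β > 0`;
4. `NP(T, β)/N0 ≥ gue β - o(1)` for every `β > 0`;
5. `Nstar/N0 → 1`, and `NP(T, β)/N0 ≤ gue β + o(1)` for every `β > 0`;
6. `Nstar/N0 → 1`, for every `ε > 0` there is `b0 > 0` with `NP(T, β)/N0 ≤ ε β` for each `β ∈ (0, b0]` and all large `T`, and
   `∫_a^b F(α, T) dα ≥ b - a - o(1)` for all `1 ≤ a < b`;
7. `∫_1^A (F(α, T) - 1)(1 - α/A) dα` tends to `0` as first `T → ∞` and then `A → ∞`, and `∫_a^b F(α, T) dα ≥ b - a - o(1)` for all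
   `1 ≤ a < b`. -/
theorem result (hRH : RiemannHypothesis) :
    List.TFAE [
      ∀ a b : ℝ, 1 ≤ a → a < b →
        Tendsto (fun T : ℝ => ∫ α in a..b, (pairF α T).re) atTop (𝓝 (b - a)),
      ∀ a b : ℝ, 1 ≤ a → a < b → ∀ ε > 0, ∀ᶠ T : ℝ in atTop, ∫ α in a..b, (pairF α T).re ≤ b - a + ε,
      ∀ β > 0, Tendsto (fun T : ℝ => NP T β / N0 T) atTop (𝓝 (gue β)),
      ∀ β > 0, ∀ ε > 0, ∀ᶠ T : ℝ in atTop, gue β - ε ≤ NP T β / N0 T,
      Tendsto (fun T : ℝ => Nstar T / N0 T) atTop (𝓝 1) ∧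
        ∀ β > 0, ∀ ε > 0, ∀ᶠ T : ℝ in atTop, NP T β / N0 T ≤ gue β + ε,
      Tendsto (fun T : ℝ => Nstar T / N0 T) atTop (𝓝 1) ∧
        (∀ ε > 0, ∃ b0 > 0, ∀ β, 0 < β → β ≤ b0 → ∀ᶠ T : ℝ in atTop, NP T β / N0 T ≤ ε * β) ∧
        ∀ a b : ℝ, 1 ≤ a → a < b → ∀ ε > 0, ∀ᶠ T : ℝ in atTop, b - a - ε ≤ ∫ α in a..b, (pairF α T).re,
      (∀ ε > 0, ∃ A0 : ℝ, 1 < A0 ∧ ∀ A, A0 ≤ A → ∀ᶠ T : ℝ in atTop,
        |∫ α in (1 : ℝ)..A, ((pairF α T).re - 1) * (1 - α / A)| ≤ ε) ∧
        ∀ a b : ℝ, 1 ≤ a → a < b → ∀ ε > 0, ∀ᶠ T : ℝ in atTop, b - a - ε ≤ ∫ α in a..b, (pairF α T).re] := by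
  tfae_have 1 → 2 := by
    intro h a b ha hb ε hε
    filter_upwards [(h a b ha hb).eventually (eventually_lt_nhds (show b - a < b - a + ε by linarith))] with T hT
    exact hT.le
  tfae_have 2 → 4 := by
    intro h
    obtain ⟨h1, h2⟩ := averaged hRH h
    exact count_lower_of_avg hRH h1 (Nstar_of_NN hRH h2)
  tfae_have 4 → 3 := fun h => (counting hRH h).1
  tfae_have 3 → 5 := by
    intro h
    have h4 : ∀ β > 0, ∀ ε > 0, ∀ᶠ T : ℝ in atTop, gue β - ε ≤ NP T β / N0 T := by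
      intro β hβ ε hε
      filter_upwards [(h β hβ).eventually (eventually_gt_nhds (show gue β - ε < gue β by linarith))] with T hT
      exact hT.le
    refine ⟨(counting hRH h4).2, fun β hβ ε hε => ?_⟩
    filter_upwards [(h β hβ).eventually (eventually_lt_nhds (show gue β < gue β + ε by linarith))] with T hT
    exact hT.le
  tfae_have 5 → 1 := by
    rintro ⟨h1, h2⟩
    exact (averaged hRH (avg_upper_of_count hRH (counting_upper hRH h2 h1) h1)).1
  tfae_have 1 → 6 := by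
    intro h
    obtain ⟨h1, -, h3⟩ := all_of_avg hRH h
    refine ⟨h1, h3, fun a b ha hb ε hε => ?_⟩
    filter_upwards [(h a b ha hb).eventually (eventually_gt_nhds (show b - a - ε < b - a by linarith))] with T hT
    exact hT.le
  tfae_have 6 → 7 := by
    rintro ⟨h1, h2, h3⟩
    exact ⟨fej_small hRH h1 h2, h3⟩
  tfae_have 7 → 1 := by
    rintro ⟨h1, h3⟩
    exact avg_of_lower h3 h1
  tfae_finish

end Pool.Agent.Results.MP_00e05b_nt.Halves
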