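import Mathlib
import Pool.Agent.Lib.MP_00e05b_nt.Defs
import Pool.Agent.Lib.MP_00e05b_nt.Bar.FIN
import Pool.Agent.Lib.MP_00e05b_nt.Bar.PG

/-!
The pair correlation function `F(α, T)` of the zeros of the Riemann zeta function, under the Riemann Hypothesis, has mass at least an
absolute constant `δ > 0` on every interval of length `1 - δ`, uniformly in the position of the interval (one is the limit for density alone:
for the integers all the mass is at the integers).
-/

open Filter MeasureTheory Set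

namespace Pool.Agent.Results.MP_00e05b_nt.NoSpectralGap

open Pool.Agent.Lib.MP_00e05b_nt Pool.Agent.Lib.MP_00e05b_nt.Mont Pool.Agent.Lib.MP_00e05b_nt.Bar

/-- Assume the Riemann Hypothesis. There are absolute constants `0 < δ < 1` and `T₀` such that for all `T ≥ T₀` the function
`F(α, T) = pairF α T` of `α` is real, and
(1) `∫_b^{b+1-δ} F(α, T) dα ≥ δ` for every real `b`;
(2) for all natural numbers `n, k` and all real `b, β_0, ..., β_{k-1}`: `F` has mass at least `δ (n - k)` on the interval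
`[b, b + n(1-δ)]` without the `k` intervals `(β_i - δ, β_i + δ)`.
`b` and the `β_i` may depend on `T`. -/
theorem result (hRH : RiemannHypothesis) :
    ∃ δ : ℝ, 0 < δ ∧ δ < 1 ∧ ∃ T₀ : ℝ, ∀ T ≥ T₀, (∀ α : ℝ, (pairF α T).im = 0) ∧
      (∀ b : ℝ, δ ≤ ∫ α in b..(b + 1 - δ), (pairF α T).re) ∧
      ∀ (n k : ℕ) (b : ℝ) (β : ℕ → ℝ), δ * ((n : ℝ) - k) ≤
        ∫ α in Icc b (b + n * (1 - δ)) \ ⋃ i ∈ Finset.range k, Ioo (β i - δ) (β i + δ), (pairF α T).re := by
  obtain ⟨δ, h0, h1, hT⟩ := barrier_off (barrier hRH)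
  obtain ⟨T0, hT0⟩ := eventually_atTop.1 hT
  refine ⟨δ, h0, h1, max T0 1, fun T hT => ⟨fun α => ?_, fun b => ?_, hT0 T ((le_max_left _ _).trans hT)⟩⟩
  · have h2 : (0 : ℝ) < T := lt_of_lt_of_le one_pos ((le_max_right _ _).trans hT)
    rw [pairF_eq h2 α]
    exact Complex.ofReal_im _
  · have h3 := hT0 T ((le_max_left _ _).trans hT) 1 0 b (fun _ => 0)
    have e1 : b + ((1 : ℕ) : ℝ) * (1 - δ) = b + 1 - δ := by push_cast; ring
    have e2 : δ * (((1 : ℕ) : ℝ) - ((0 : ℕ) : ℝ)) = δ := by push_cast; ring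
    have e3 : (⋃ i ∈ Finset.range 0, Ioo ((fun _ : ℕ => (0 : ℝ)) i - δ) ((fun _ : ℕ => (0 : ℝ)) i + δ)) = ∅ := by simp
    rw [e1, e2, e3, sdiff_empty, integral_Icc_eq_integral_Ioc, ← intervalIntegral.integral_of_le (by linarith)] at h3
    exact h3

end Pool.Agent.Results.MP_00e05b_nt.NoSpectralGap
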