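import Pool.Agent.Lib.MP_00e05b_nt.UH.Ga
import Pool.Agent.Lib.MP_00e05b_nt.UH.Un

/-!
# The strong pair correlation conjecture follows from its upper half in mean

`F(α, T) = pairF α T`, `L = log T`. On the Riemann hypothesis: (1) the lower half of the refined statement
`F = 1 - (1 + log 2π)/L + o(1/L)` holds in mean over `α`; (2) if the upper half holds in mean with an error `o(1/L)`, for `α` up to
`L^κ`, `κ > 1/2`, then `F → 1` uniformly for `1 ≤ α ≤ L^κ'`, `κ' < κ`.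
-/

open Filter MeasureTheory Topology

namespace Pool.Agent.Results.MP_00e05b_nt.UniformFromUpperHalf

open Pool.Agent.Lib.MP_00e05b_nt Pool.Agent.Lib.MP_00e05b_nt.Mont Pool.Agent.Lib.MP_00e05b_nt.UH

theorem result (hRH : RiemannHypothesis) :
    (∀ ε : ℝ, 0 < ε → ∀ᶠ T : ℝ in atTop, ∀ A : ℝ, 1 ≤ A → A ≤ T ^ (1 / 5 : ℝ) →
      -(1 / (6 * A ^ 2)) - ε / Real.log T ≤
        ∫ α in Set.Ioi (1 : ℝ), Real.exp (-(α ^ 2 / (2 * A ^ 2))) *
          ((pairF α T).re - 1 + (1 + Real.log (2 * Real.pi)) / Real.log T)) ∧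
    ∀ κ : ℝ, Tendsto (fun T : ℝ => Real.log T * ∫ α in (1 : ℝ)..(Real.log T ^ κ),
        max ((pairF α T).re - 1 + (1 + Real.log (2 * Real.pi)) / Real.log T) 0) atTop (𝓝 0) →
      ∀ κ' : ℝ, 1 / 2 < κ' → κ' < κ →
        (∀ ε : ℝ, 0 < ε → ∀ᶠ T : ℝ in atTop, ∀ α : ℝ, 1 ≤ α → α ≤ Real.log T ^ κ' → ‖pairF α T - 1‖ ≤ ε) ∧
        Tendsto (fun T : ℝ => Real.log T * ∫ α in (1 : ℝ)..(Real.log T ^ κ'),
          |(pairF α T).re - 1 + (1 + Real.log (2 * Real.pi)) / Real.log T|) atTop (𝓝 0) ∧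
        (∀ ε : ℝ, 0 < ε → ∀ᶠ T : ℝ in atTop,
          (∑ x ∈ ordinates T, ∑ y ∈ ordinates T,
              if |x - y| ≤ Real.log T ^ (-(1 + κ')) then (mult x : ℝ) * (mult y : ℝ) else 0) -
            ∑ x ∈ ordinates T, (mult x : ℝ) ≤ ε * T * Real.log T ^ (-κ')) := by
  refine ⟨gaussF hRH, fun κ h κ' h1 h2 => ?_⟩
  have hP := PF_to h
  refine ⟨fun ε hε => ?_, L1F hRH h1 h2 hP, gapsF hRH h1 h2 hP⟩
  filter_upwards [uniF hRH h1 h2 hP ε hε, eventually_gt_atTop (0 : ℝ)] with T hT hT0 α ha hb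
  have h3 := hT α ha hb
  have h4 : pairF α T = ((FF α T : ℝ) : ℂ) := by
    unfold FF
    rw [pairF_eq hT0, Complex.ofReal_re]
  rw [h4, ← Complex.ofReal_one, ← Complex.ofReal_sub, Complex.norm_real, Real.norm_eq_abs]
  exact h3

end Pool.Agent.Results.MP_00e05b_nt.UniformFromUpperHalf
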